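import Pool.Agent.Helper34.FQ.Defs

/-!
Rows VAN and SORT of `fq_mods`.
-/

set_option autoImplicit false

namespace Pool.Agent.Helper34.FQ

open Finset Pool.Agent.Helper34.PN

theorem wP_van {Ω α J : Type} [LinearOrder α] (s : Ω → α → Fin 3) (X : J → ℕ → α)
    (a : Fin 3) (ha : a ≠ 0) (m r : ℕ) (e : J) (ω : Ω)
    (hinj : ∀ i j, i < j → j < r → X e i < X e j)
    (hno : ¬ (m ≤ ((pre X r e).filter (fun x => s ω x = a)).card ∧
      ∀ x ∈ pre X r e, s ω x = a ∨ s ω x = 0))
    (P : Finset ℕ) (hP : P ⊆ range r) (hc : P.card = m) :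
    wP s X a P r e ω = 0 := by
  by_contra hne
  unfold wP at hne
  rw [← ne_eq, Finset.prod_ne_zero_iff] at hne
  have h1 : ∀ i < r, i ∈ P → s ω (X e i) = a := by
    intro i hi hiP
    have := hne i (Finset.mem_range.2 hi)
    rw [if_pos hiP] at this
    unfold ind at this
    by_contra hcon
    rw [if_neg hcon] at this
    simp at this
  have h2 : ∀ i < r, i ∉ P → s ω (X e i) = 0 := by
    intro i hi hiP
    have := hne i (Finset.mem_range.2 hi)
    rw [if_neg hiP] at this
    unfold ind at this
    by_contra hcon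
    rw [if_neg hcon] at this
    simp at this
  apply hno
  refine ⟨?_, ?_⟩
  · have hsub : P.image (X e) ⊆ (pre X r e).filter (fun x => s ω x = a) := by
      intro x hx
      rw [Finset.mem_image] at hx
      obtain ⟨i, hi, rfl⟩ := hx
      have hir := Finset.mem_range.1 (hP hi)
      rw [Finset.mem_filter]
      exact ⟨Finset.mem_image.2 ⟨i, hP hi, rfl⟩, h1 i hir hi⟩
    have hcard : (P.image (X e)).card = P.card := by
      apply Finset.card_image_of_injOn
      intro i hi j hj hij
      have hir := Finset.mem_range.1 (hP hi)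
      have hjr := Finset.mem_range.1 (hP hj)
      rcases lt_trichotomy i j with h | h | h
      · exact absurd hij (hinj i j h hjr).ne
      · exact h
      · exact absurd hij.symm (hinj j i h hir).ne
    rw [← hc, ← hcard]
    exact Finset.card_le_card hsub
  · intro x hx
    unfold pre at hx
    rw [Finset.mem_image] at hx
    obtain ⟨i, hi, rfl⟩ := hx
    rw [Finset.mem_range] at hi
    by_cases hiP : i ∈ P
    · exact Or.inl (h1 i hi hiP)
    · exact Or.inr (h2 i hi hiP)

theorem sort_exists {α : Type} [DecidableEq α] (Z : Finset α) (hZ : Z.Nonempty)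
    (D : α → ℝ) : ∃ (p : α → ℕ) (g : ℕ → α), (∀ x ∈ Z, g (p x) = x) ∧
      ∀ x ∈ Z, ∀ y ∈ Z, p x ≤ p y → D y ≤ D x := by
  classical
  obtain ⟨z0, hz0⟩ := hZ
  have e : Z ≃ Fin Z.card := Finset.equivFin Z
  have hmono := Tuple.monotone_sort (fun i : Fin Z.card => -D (e.symm i).1)
  refine ⟨fun x => if h : x ∈ Z then
      ((Tuple.sort (fun i : Fin Z.card => -D (e.symm i).1)).symm (e ⟨x, h⟩)).1 else 0,
    fun k => if h : k < Z.card then
      (e.symm (Tuple.sort (fun i : Fin Z.card => -D (e.symm i).1) ⟨k, h⟩)).1 else z0, ?_, ?_⟩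
  · intro x hx
    simp only [hx, dif_pos, Fin.is_lt, Fin.eta, Equiv.apply_symm_apply, Equiv.symm_apply_apply]
  · intro x hx y hy hxy
    simp only [hx, hy, dif_pos] at hxy
    have := hmono (Fin.le_def.2 hxy)
    simp only [Function.comp_apply, Equiv.apply_symm_apply, Equiv.symm_apply_apply] at this
    linarith

end Pool.Agent.Helper34.FQ
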